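import Pool.Agent.H20.SM.TZ
import Pool.Agent.H64.CRG.MS
import Pool.Agent.H65.CRG.Base

/-!
Board sm_modules, row MSz: mean squares on the left line, with a shift.
-/

set_option autoImplicit false

open NumberField NumberField.InfinitePlace Complex Filter Topology MeasureTheory

namespace Pool.Agent.H79.SM

open Pool.Agent.H20.SM
open Pool.Agent.H28.RC Pool.Agent.H25.HK Pool.Agent.H37.CV
open Pool.Agent.H65.CRZ (Zx ml pol cu Bm b0)
open Pool.Agent.H65.CRG (Lg sl cB)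
open Pool.Agent.H64.CRG (log_large ofReal_finsum_mem)

/-- the special moduli are large -/
theorem sp_large (F : Type) [Field F] [NumberField F] (A : ℕ) (Y : ℝ) :
    ∃ x₀ : ℝ, ∀ (x : ℝ) (q : ℕ), x₀ ≤ x → Sp F A x q → 1 ≤ q ∧ Y ≤ q := by
  refine ⟨max (Real.exp 1) (Y ^ 2), fun x q hx h => ?_⟩
  have hx1 : Real.exp 1 ≤ x := (le_max_left _ _).trans hx
  have hx2 : Y ^ 2 ≤ x := (le_max_right _ _).trans hx
  have h1 : 1 ≤ Real.log x := by
    have := Real.log_le_log (Real.exp_pos 1) hx1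
    rwa [Real.log_exp] at this
  have h2 : (1 : ℝ) ≤ q.primeFactors.card := (one_le_pow₀ h1).trans h.lo
  have h3 : 0 < q.primeFactors.card := by
    rcases Nat.eq_zero_or_pos q.primeFactors.card with h0 | h0
    · rw [h0] at h2
      norm_num at h2
    · exact h0
  obtain ⟨p, hp⟩ := Finset.card_pos.1 h3
  have h4 := h.low p hp
  have h5 : q ≠ 0 := fun h0 => by
    rw [h0] at hp
    simp at hp
  have h6 : p ≤ q := Nat.le_of_dvd (Nat.pos_of_ne_zero h5) (Nat.dvd_of_mem_primeFactors hp)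
  have h7 : (p : ℝ) ≤ q := by exact_mod_cast h6
  refine ⟨Nat.one_le_iff_ne_zero.2 h5, ?_⟩
  have h8 : Y ≤ Real.sqrt x := Real.le_sqrt_of_sq_le hx2
  linarith

/-- the parameters `log q`, `L` -/
theorem Lz_bds (K : Type) [Field K] [NumberField K] (c : ℝ) (hc : 0 < c)
    (hn : 1 ≤ nrComplexPlaces K)
    (hcA : ∀ q : ℕ, 1 ≤ q → cB K (qi K q) = c * (q : ℝ) ^ nrComplexPlaces K) :
    ∃ q₁ : ℕ, ∀ q : ℕ, 1 ≤ q → q₁ ≤ q → 1 ≤ Real.log q ∧
      nrComplexPlaces K * Real.log q ≤ Lg K q ∧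
      Lg K q ≤ 4 * nrComplexPlaces K * Real.log q := by
  obtain ⟨q₁, h1⟩ := log_large (1 + 2 * |Real.log c|)
  refine ⟨q₁, fun q hq hqq => ?_⟩
  have h2 := h1 q hqq
  have h3 := abs_nonneg (Real.log c)
  have h4 := le_abs_self (Real.log c)
  have h5 := neg_abs_le (Real.log c)
  have hq0 : (0 : ℝ) < q := by exact_mod_cast hq
  have h6 : Lg K q = 2 * Real.log c + 2 * (nrComplexPlaces K * Real.log q) := by
    unfold Lg
    rw [hcA q hq, Real.log_mul hc.ne' (by positivity), Real.log_pow]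
    ring
  have hn' : (1 : ℝ) ≤ nrComplexPlaces K := by exact_mod_cast hn
  have hl0 : 0 ≤ Real.log q := by linarith
  have h7 : Real.log q ≤ nrComplexPlaces K * Real.log q := le_mul_of_one_le_left hl0 hn'
  refine ⟨by linarith, ?_, ?_⟩
  · rw [h6]
    linarith
  · rw [h6]
    linarith

theorem pf_MSz (h1 : T_Bz) (h3 : T_CQz) (h4 : T_LFz) : T_MSz := by
  intro K _ _ _ _
  have h2 : Pool.Agent.H65.CRZ.T_BB := Pool.Agent.H65.CRG.Base.c_BB
  obtain ⟨A₀, hA₀⟩ := h1 K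
  refine ⟨A₀, fun A R ε₁ hA hR hε hε' => ?_⟩
  obtain ⟨hn1, hfr, c, hc, hcA⟩ := h3 K
  obtain ⟨n, hnn⟩ : ∃ n : ℝ, n = (nrComplexPlaces K : ℝ) := ⟨_, rfl⟩
  have hn : 1 ≤ n := by rw [hnn]; exact_mod_cast hn1
  have hn0 : 0 < n := by linarith
  obtain ⟨B, hB, hBη⟩ := hA₀ A ε₁ (R / (4 * n)) (2 * R) hA hε hε' (by positivity) (by positivity)
  have hε2 : 0 < 1 - 2 * ε₁ := by linarith
  have hκ : 0 < (1 - 2 * ε₁) / 4 := by positivity
  obtain ⟨C, hC, hCb⟩ := h2 R ((1 - 2 * ε₁) / 4) hR hκ (by linarith)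
  obtain ⟨q₁, hq₁⟩ := Lz_bds K c hc hn1 fun q hq => (hcA q hq).1
  rw [← hnn] at hq₁
  obtain ⟨x₁, hx₁⟩ := sp_large K A (q₁ : ℝ)
  refine ⟨C, B, hC, hB, fun η hη => ?_⟩
  obtain ⟨x₂, hx₂⟩ := hBη η hη
  refine ⟨max x₁ x₂, fun x q hx hSp a u ha => ?_⟩
  obtain ⟨hq, hqq⟩ := hx₁ x q ((le_max_left _ _).trans hx) hSp
  obtain ⟨l1, l2', l3⟩ := hq₁ q hq (by exact_mod_cast hqq)
  have hq0 : (0 : ℝ) < q := by exact_mod_cast hq
  set L := Lg K q with hL
  have hlogq : 0 < Real.log q := by linarith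
  have l2 : Real.log q ≤ L := (le_mul_of_one_le_left hlogq.le hn).trans l2'
  have hL0 : 0 < L := by linarith
  have haL : L * ‖a‖ ≤ R / 2 := by
    have := mul_le_mul_of_nonneg_left ha hL0.le
    refine this.trans (le_of_eq ?_)
    field_simp
  set α : ℂ := -(R / L : ℝ) + a with hα
  have hLC : (L : ℂ) ≠ 0 := by exact_mod_cast hL0.ne'
  have e1 : ‖α‖ ≤ 2 * R / Real.log q := by
    have h5 : ‖α‖ ≤ R / L + R / (2 * L) := by
      refine (norm_add_le _ _).trans (add_le_add ?_ ha)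
      rw [norm_neg, Complex.norm_real, Real.norm_eq_abs, abs_of_pos (by positivity)]
    have h6 : R / L + R / (2 * L) ≤ 2 * R / L := by
      have : 2 * R / L - (R / L + R / (2 * L)) = R / (2 * L) := by
        field_simp
        ring
      have h7 : 0 ≤ R / (2 * L) := by positivity
      linarith
    have h8 : 2 * R / L ≤ 2 * R / Real.log q :=
      div_le_div_of_nonneg_left (by positivity) hlogq l2
    exact h5.trans (h6.trans h8)
  have e2 : ‖(starRingEnd ℂ) α‖ ≤ 2 * R / Real.log q := by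
    rw [RCLike.norm_conj]
    exact e1
  have e3 : R / (4 * n) / Real.log q ≤ ‖α + (starRingEnd ℂ) α‖ := by
    have h5 : α + (starRingEnd ℂ) α = ((2 * α.re : ℝ) : ℂ) := by
      rw [Complex.add_conj]
    have h6 : α.re = -(R / L) + a.re := by
      rw [hα, Complex.add_re, Complex.neg_re, Complex.ofReal_re]
    have h7 : a.re ≤ R / (2 * L) := (Complex.re_le_norm a).trans ha
    have h8 : R / (2 * L) + R / (2 * L) = R / L := by
      field_simp
      ring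
    have h9 : R / L ≤ -(2 * α.re) := by
      rw [h6]
      linarith
    rw [h5, Complex.norm_real, Real.norm_eq_abs]
    have h10 : R / (4 * n) / Real.log q ≤ R / L := by
      rw [div_div]
      exact div_le_div_of_nonneg_left hR.le hL0 l3
    exact h10.trans (h9.trans (neg_le_abs _))
  have key := hx₂ x q ((le_max_right _ _).trans hx) hSp α ((starRingEnd ℂ) α) u e1 e2 e3
  have hs : (1 / 2 + α + u * I : ℂ) = (sl K R q : ℂ) + u * I + a := by
    rw [hα]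
    unfold sl
    rw [← hL]
    push_cast
    ring
  have hml : ∀ ψ : Ideal (𝓞 K) → ℂ, pol (Mo K ε₁ q) (cu K (Mo K ε₁ q) u) ψ =
      ml (Mo K ε₁ q) (sl K R q) ψ (sl K R q + u * I) := by
    intro ψ
    unfold pol ml cu
    refine Finset.sum_congr rfl fun S _ => ?_
    have h5 : ((sl K R q : ℂ) + u * I + 1 / 2 - (sl K R q : ℂ)) = 1 / 2 + u * I := by ring
    rw [h5]
    ring
  have hterm : ∀ χ : RCC K, Zx χ (1 / 2 + α + u * I) *
      (starRingEnd ℂ) (Zx χ (1 / 2 + (starRingEnd ℂ) ((starRingEnd ℂ) α) + u * I)) *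
        ((‖pol (Mo K ε₁ q) (cu K (Mo K ε₁ q) u) χ.ψ‖ ^ 2 : ℝ) : ℂ) =
      ((‖Zx χ (sl K R q + u * I + a) *
        ml (Mo K ε₁ q) (sl K R q) χ.ψ (sl K R q + u * I)‖ ^ 2 : ℝ) : ℂ) := by
    intro χ
    rw [Complex.conj_conj, hs, hml, Complex.mul_conj, Complex.normSq_eq_norm_sq, norm_mul, mul_pow]
    push_cast
    ring
  have hsum : ((∑ᶠ χ ∈ Pr K (qi K q), ‖Zx χ (sl K R q + u * I + a) *
      ml (Mo K ε₁ q) (sl K R q) χ.ψ (sl K R q + u * I)‖ ^ 2 : ℝ) : ℂ) =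
      ∑ᶠ χ ∈ Pr K (qi K q), Zx χ (1 / 2 + α + u * I) *
        (starRingEnd ℂ) (Zx χ (1 / 2 + (starRingEnd ℂ) ((starRingEnd ℂ) α) + u * I)) *
          ((‖pol (Mo K ε₁ q) (cu K (Mo K ε₁ q) u) χ.ψ‖ ^ 2 : ℝ) : ℂ) := by
    rw [ofReal_finsum_mem]
    exact finsum_congr fun χ => finsum_congr fun _ => (hterm χ).symm
  rw [← hsum] at key
  set S : ℝ := ∑ᶠ χ ∈ Pr K (qi K q), ‖Zx χ (sl K R q + u * I + a) *
      ml (Mo K ε₁ q) (sl K R q) χ.ψ (sl K R q + u * I)‖ ^ 2 with hS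
  -- the main term
  have hl : Real.log (Mo K ε₁ q) = (1 - 2 * ε₁) * (n * Real.log q) := by
    unfold Mo
    rw [(hcA q hq).2, Real.log_rpow (by positivity), Real.log_pow, hfr, hnn]
    push_cast
    ring
  have hl1 : (1 - 2 * ε₁) / 4 * L ≤ Real.log (Mo K ε₁ q) := by
    rw [hl]
    have h5 := mul_le_mul_of_nonneg_left l3 hκ.le
    linarith
  have hl2 : Real.log (Mo K ε₁ q) ≤ L := by
    rw [hl]
    have h5 : 0 ≤ 2 * ε₁ * (n * Real.log q) := by positivity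
    linarith
  have hn1 : ‖(L : ℂ) * α + R‖ ≤ R / 2 := by
    have h5 : (L : ℂ) * α + R = L * a := by
      rw [hα]
      push_cast
      field_simp
      ring
    rw [h5, norm_mul, Complex.norm_real, Real.norm_eq_abs, abs_of_pos hL0]
    exact haL
  have hn2 : ‖(L : ℂ) * (starRingEnd ℂ) α + R‖ ≤ R / 2 := by
    have h5 : (L : ℂ) * (starRingEnd ℂ) α + R = (starRingEnd ℂ) ((L : ℂ) * α + R) := by
      rw [map_add (starRingEnd ℂ) ((L : ℂ) * α) (R : ℂ), map_mul (starRingEnd ℂ) (L : ℂ) α,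
        Complex.conj_ofReal, Complex.conj_ofReal]
    rw [h5, RCLike.norm_conj]
    exact hn1
  obtain ⟨g1, g2⟩ := hCb L (Real.log (Mo K ε₁ q)) ((L : ℂ) * α) ((L : ℂ) * (starRingEnd ℂ) α) hL0
    hl1 hl2 hn1 hn2
  have g3 : (L : ℂ) * α / L = α := mul_div_cancel_left₀ _ hLC
  have g4 : (L : ℂ) * (starRingEnd ℂ) α / L = (starRingEnd ℂ) α := mul_div_cancel_left₀ _ hLC
  rw [g3, g4] at g1
  have g5 : ‖Bm α ((starRingEnd ℂ) α) L (Real.log (Mo K ε₁ q))‖ ≤ C := by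
    rw [g1]
    exact g2
  have hnc : (0 : ℝ) ≤ nc (qi K q) (qi K q) := Nat.cast_nonneg _
  have g6 : ‖(S : ℂ)‖ ≤ ‖(nc (qi K q) (qi K q) : ℂ) *
      Bm α ((starRingEnd ℂ) α) L (Real.log (Mo K ε₁ q))‖ + η * (1 + |u|) ^ B *
        nc (qi K q) (qi K q) := by
    have h5 := norm_le_norm_add_norm_sub' (S : ℂ) ((nc (qi K q) (qi K q) : ℂ) *
      Bm α ((starRingEnd ℂ) α) L (Real.log (Mo K ε₁ q)))
    exact h5.trans (add_le_add_right key _)
  rw [Complex.norm_real, Real.norm_eq_abs, norm_mul, Complex.norm_natCast] at g6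
  have g7 := mul_le_mul_of_nonneg_left g5 hnc
  have g8 := le_abs_self S
  have g9 : (C + η * (1 + |u|) ^ B) * (nc (qi K q) (qi K q) : ℝ) =
      nc (qi K q) (qi K q) * C + η * (1 + |u|) ^ B * nc (qi K q) (qi K q) := by ring
  rw [g9]
  linarith

end Pool.Agent.H79.SM
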