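import Pool.Agent.H20.SM.Targets

/-!
# Board SM, row SND: the sum over the proper divisors
-/

set_option autoImplicit false

open Filter Topology

namespace Pool.Agent.H79.SM

open Pool.Agent.H20.SM

/-- `exp s - 1 ≤ 2 s` -/
theorem snd_exp {s : ℝ} (h0 : 0 ≤ s) (h1 : s ≤ 1 / 2) : Real.exp s ≤ 1 + 2 * s := by
  refine (Real.exp_bound_div_one_sub_of_interval h0 (by linarith)).trans ?_
  rw [div_le_iff₀ (by linarith)]
  nlinarith

/-- SND -/
theorem pf_SND : T_SND := by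
  intro n A
  have hlo := isLittleO_log_rpow_rpow_atTop (A : ℝ) (show (0 : ℝ) < 1 / 8 by norm_num)
  have hc : (0 : ℝ) < 1 / (4 * 2 ^ n) := by positivity
  have hev := (hlo.bound hc).and (eventually_ge_atTop (1 : ℝ))
  obtain ⟨x₀, hx₀⟩ := eventually_atTop.1 hev
  refine ⟨x₀, fun x R hx hR hN => ?_⟩
  obtain ⟨h1, h2⟩ := hx₀ x hx
  have hx0 : 0 < x := by linarith
  have hlog : 0 ≤ Real.log x := Real.log_nonneg h2
  rw [Real.rpow_natCast, Real.norm_of_nonneg (by positivity),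
    Real.norm_of_nonneg (by positivity)] at h1
  obtain ⟨y, hy⟩ : ∃ y : ℝ, y = 2 ^ n * x ^ (-(3 / 8) : ℝ) := ⟨_, rfl⟩
  have hy0 : 0 ≤ y := by
    rw [hy]
    positivity
  have hterm : ∀ S ∈ R.powerset.erase ∅,
      (2 : ℝ) ^ (n * S.card) * (∏ p ∈ S, (p : ℝ)) ^ (-(3 / 4) : ℝ) ≤ y ^ S.card := by
    intro S hS
    have hSR : S ⊆ R := Finset.mem_powerset.1 (Finset.mem_of_mem_erase hS)
    have hprod : (Real.sqrt x) ^ S.card ≤ ∏ p ∈ S, (p : ℝ) := by
      rw [← Finset.prod_const]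
      exact Finset.prod_le_prod (fun _ _ => Real.sqrt_nonneg x) (fun p hp => hR p (hSR hp))
    have hle : (∏ p ∈ S, (p : ℝ)) ^ (-(3 / 4) : ℝ) ≤
        ((Real.sqrt x) ^ S.card) ^ (-(3 / 4) : ℝ) :=
      Real.rpow_le_rpow_of_nonpos (by positivity) hprod (by norm_num)
    have heq : ((Real.sqrt x) ^ S.card) ^ (-(3 / 4) : ℝ) = (x ^ (-(3 / 8) : ℝ)) ^ S.card := by
      rw [Real.sqrt_eq_rpow, ← Real.rpow_natCast, ← Real.rpow_natCast, ← Real.rpow_mul hx0.le,
        ← Real.rpow_mul hx0.le, ← Real.rpow_mul hx0.le]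
      congr 1
      ring
    calc (2 : ℝ) ^ (n * S.card) * (∏ p ∈ S, (p : ℝ)) ^ (-(3 / 4) : ℝ) ≤
        2 ^ (n * S.card) * (x ^ (-(3 / 8) : ℝ)) ^ S.card :=
          mul_le_mul_of_nonneg_left (hle.trans_eq heq) (by positivity)
      _ = y ^ S.card := by rw [hy, mul_pow, ← pow_mul]
  refine (Finset.sum_le_sum hterm).trans ?_
  have hsum : ∑ S ∈ R.powerset, y ^ S.card = (y + 1) ^ R.card := by
    have := Finset.sum_pow_mul_eq_add_pow y 1 R
    rw [← this]
    refine Finset.sum_congr rfl fun S _ => ?_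
    rw [one_pow, mul_one]
  have herase : ∑ S ∈ R.powerset.erase ∅, y ^ S.card = (y + 1) ^ R.card - 1 := by
    have := Finset.add_sum_erase R.powerset (fun S => y ^ S.card)
      (Finset.empty_mem_powerset R)
    rw [hsum, Finset.card_empty, pow_zero] at this
    linarith
  rw [herase]
  have hx4 : x ^ (-(1 / 4) : ℝ) ≤ 1 := Real.rpow_le_one_of_one_le_of_nonpos h2 (by norm_num)
  have hx40 : 0 < x ^ (-(1 / 4) : ℝ) := by positivity
  have ht : (R.card : ℝ) * y ≤ 1 / 2 * x ^ (-(1 / 4) : ℝ) := by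
    have e1 : x ^ (-(1 / 4) : ℝ) = x ^ (1 / 8 : ℝ) * x ^ (-(3 / 8) : ℝ) := by
      rw [← Real.rpow_add hx0]
      norm_num
    have h3 : (R.card : ℝ) * y ≤ 2 * (1 / (4 * 2 ^ n) * x ^ (1 / 8 : ℝ)) * y :=
      mul_le_mul_of_nonneg_right (hN.trans (mul_le_mul_of_nonneg_left h1 (by norm_num))) hy0
    refine h3.trans (le_of_eq ?_)
    rw [e1, hy]
    field_simp
    ring
  have h4 : (y + 1) ^ R.card ≤ Real.exp (R.card * y) := by
    rw [Real.exp_nat_mul]
    exact pow_le_pow_left₀ (by linarith) (Real.add_one_le_exp y) _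
  have h5 : Real.exp (R.card * y) ≤ Real.exp (1 / 2 * x ^ (-(1 / 4) : ℝ)) :=
    Real.exp_le_exp.2 ht
  have h6 := snd_exp (s := 1 / 2 * x ^ (-(1 / 4) : ℝ)) (by positivity) (by linarith)
  linarith

end Pool.Agent.H79.SM
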